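import Pool.Agent.W783.Perc.Stmts
import Pool.Agent.H592F.OrientProb

set_option autoImplicit false

open MeasureTheory Set Pool.Agent.H592F
open scoped ENNReal

namespace Pool.Agent.W573.PC

noncomputable section

open Pool.Agent.W783.PC

theorem dep_near' (k : ℕ) : ∀ (s t x y : P2), near x y → x ∈ dep k s → y ∈ dep k t → ¬ far s t := by
  induction k with
  | zero =>
    intro s t x y hxy hs ht
    simp only [dep, Finset.mem_singleton] at hs ht
    subst hs
    subst ht
    exact not_far_iff.mpr hxy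
  | succ k ih =>
    intro s t x y hxy hs ht
    simp only [dep, Finset.mem_biUnion] at hs ht
    obtain ⟨s', hs', hxs⟩ := hs
    obtain ⟨t', ht', hxt⟩ := ht
    have h := ih s' t' x y hxy hxs hxt
    rw [mem_Reg] at hs' ht'
    unfold far at h ⊢
    push Not at h ⊢
    obtain ⟨h1, h2⟩ := h
    rw [abs_le] at h1 h2
    unfold ph at hs' ht'
    simp only at hs' ht'
    rw [abs_le, abs_le]
    refine ⟨⟨?_, ?_⟩, ⟨?_, ?_⟩⟩ <;> omega

/-- the coordinates on which badness at level `k` depends -/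
def DD {ι : Type} [DecidableEq ι] (D : P2 → Finset ι) (k : ℕ) (v : P2) : Finset ι :=
  (dep k v).biUnion D

theorem bad_dep {ι : Type} [DecidableEq ι] (B : P2 → Set (ι → Bool)) (D : P2 → Finset ι)
    (hB : ∀ v, DepOn (B v) (D v : Set ι)) (k : ℕ) (v : P2) :
    DepOn {ω | bad (fun v => ω ∈ B v) k v} (DD D k v : Set ι) := by
  intro ω ω' h
  refine bad_congr _ _ k v fun x hx => hB x ω ω' fun c hc => h c ?_
  unfold DD
  rw [Finset.coe_biUnion]
  exact Set.mem_biUnion (Finset.mem_coe.mpr hx) hc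

theorem DD_disj {ι : Type} [DecidableEq ι] (D : P2 → Finset ι)
    (hD : ∀ s t, far s t → Disjoint (D s) (D t)) (k : ℕ) (s t : P2) (h : far s t) :
    Disjoint (DD D k s) (DD D k t) := by
  unfold DD
  rw [Finset.disjoint_biUnion_left]
  intro x hx
  rw [Finset.disjoint_biUnion_right]
  intro y hy
  apply hD
  by_contra hf
  exact dep_near' k s t x y (not_far_iff.mp hf) hx hy h

theorem bad_prob' (hI : S_indep) (hM : S_depmeas) {ι : Type} [DecidableEq ι] (r : ι → unitInterval)
    (B : P2 → Set (ι → Bool)) (D : P2 → Finset ι)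
    (hB : ∀ v, DepOn (B v) (D v : Set ι))
    (hD : ∀ s t, far s t → Disjoint (D s) (D t))
    (h0 : ∀ v, pm r (B v) ≤ ENNReal.ofReal (1 / 884101250)) (k : ℕ) (v : P2) :
    pm r {ω | bad (fun v => ω ∈ B v) k v} ≤ ENNReal.ofReal (qq k) := by
  induction k generalizing v with
  | zero =>
    refine (h0 v).trans (ENNReal.ofReal_le_ofReal ?_)
    unfold qq
    norm_num
  | succ k ih =>
    have hsub : {ω | bad (fun v => ω ∈ B v) (k + 1) v} ⊆ ⋃ s ∈ Reg v, ⋃ t ∈ Reg v,
        {ω | far s t ∧ bad (fun v => ω ∈ B v) k s ∧ bad (fun v => ω ∈ B v) k t} := by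
      rintro ω ⟨s, hs, t, ht, hf, h1, h2⟩
      rw [Set.mem_iUnion₂]
      refine ⟨s, hs, ?_⟩
      rw [Set.mem_iUnion₂]
      exact ⟨t, ht, hf, h1, h2⟩
    refine (measure_mono hsub).trans ((measure_biUnion_finset_le _ _).trans ?_)
    have hq0 : 0 ≤ qq k := by unfold qq; positivity
    have hin : ∀ s ∈ Reg v, pm r (⋃ t ∈ Reg v,
        {ω | far s t ∧ bad (fun v => ω ∈ B v) k s ∧ bad (fun v => ω ∈ B v) k t})
          ≤ ENNReal.ofReal (21025 * (qq k * qq k)) := by
      intro s _
      refine (measure_biUnion_finset_le _ _).trans ?_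
      have hin2 : ∀ t ∈ Reg v, pm r {ω | far s t ∧ bad (fun v => ω ∈ B v) k s ∧
          bad (fun v => ω ∈ B v) k t} ≤ ENNReal.ofReal (qq k * qq k) := by
        intro t _
        by_cases hf : far s t
        · have : {ω | far s t ∧ bad (fun v => ω ∈ B v) k s ∧ bad (fun v => ω ∈ B v) k t}
              = {ω | bad (fun v => ω ∈ B v) k s} ∩ {ω | bad (fun v => ω ∈ B v) k t} := by
            ext ω; simp only [Set.mem_ofPred_eq, Set.mem_inter_iff, hf, true_and]
          rw [this, hI ι r (DD D k s : Set ι) (DD D k t : Set ι) _ _ (bad_dep B D hB k s)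
            (bad_dep B D hB k t) (Finset.disjoint_coe.mpr (DD_disj D hD k s t hf))
            (hM ι (DD D k s) _ (bad_dep B D hB k s)) (hM ι (DD D k t) _ (bad_dep B D hB k t)),
            ENNReal.ofReal_mul hq0]
          exact mul_le_mul' (ih s) (ih t)
        · have : {ω | far s t ∧ bad (fun v => ω ∈ B v) k s ∧ bad (fun v => ω ∈ B v) k t} = ∅ := by
            ext ω; simp only [Set.mem_ofPred_eq, hf, false_and, Set.mem_empty_iff_false]
          rw [this]; simp
      calc _ ≤ ∑ t ∈ Reg v, ENNReal.ofReal (qq k * qq k) := Finset.sum_le_sum hin2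
        _ = _ := by
            rw [Finset.sum_const, card_Reg, nsmul_eq_mul, ENNReal.ofReal_mul (p := 21025) (by norm_num)]
            norm_num
    calc _ ≤ ∑ s ∈ Reg v, ENNReal.ofReal (21025 * (qq k * qq k)) := Finset.sum_le_sum hin
      _ = ENNReal.ofReal (21025 * (21025 * (qq k * qq k))) := by
          rw [Finset.sum_const, card_Reg, nsmul_eq_mul, ENNReal.ofReal_mul (p := 21025) (by norm_num)]
          norm_num
      _ ≤ ENNReal.ofReal (qq (k + 1)) := by
          refine ENNReal.ofReal_le_ofReal ?_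
          unfold qq
          have h1 : (0 : ℝ) < (1 / 2) ^ (k + 1) := by positivity
          have h2 : ((1 : ℝ) / 2) ^ (k + 1) ≤ 1 / 2 := by
            calc ((1 : ℝ) / 2) ^ (k + 1) ≤ (1 / 2) ^ 1 :=
                  pow_le_pow_of_le_one (by norm_num) (by norm_num) (by omega)
              _ = 1 / 2 := by norm_num
          have h3 : ((1 : ℝ) / 2) ^ (k + 1 + 1) = (1 / 2) ^ (k + 1) * (1 / 2) := pow_succ _ _
          rw [h3]
          nlinarith

theorem fail_prob' (hI : S_indep) (hM : S_depmeas) {ι : Type} [DecidableEq ι] (r : ι → unitInterval)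
    (B : P2 → Set (ι → Bool)) (D : P2 → Finset ι)
    (hB : ∀ v, DepOn (B v) (D v : Set ι))
    (hD : ∀ s t, far s t → Disjoint (D s) (D t))
    (h0 : ∀ v, pm r (B v) ≤ ENNReal.ofReal (1 / 884101250)) :
    pm r {ω | ∃ k, ¬ safe (bad (fun v => ω ∈ B v) k) (0, 0)} ≤ ENNReal.ofReal (1 / 4) := by
  set W : Finset P2 := Finset.Icc (-3) 3 ×ˢ Finset.Icc (-3) 3 with hW
  have hcW : W.card = 49 := by rw [hW, Finset.card_product, Int.card_Icc]; rfl
  have hsub : {ω | ∃ k, ¬ safe (bad (fun v => ω ∈ B v) k) (0, 0)}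
      ⊆ ⋃ k : ℕ, ⋃ u ∈ W, {ω | bad (fun v => ω ∈ B v) k u} := by
    rintro ω ⟨k, hk⟩
    unfold safe at hk
    push Not at hk
    obtain ⟨u, hu, hb⟩ := hk
    rw [Set.mem_iUnion]
    refine ⟨k, ?_⟩
    rw [Set.mem_iUnion₂]
    refine ⟨u, ?_, hb⟩
    obtain ⟨h1, h2⟩ := hu
    simp only [sub_zero] at h1 h2
    rw [abs_le] at h1 h2
    rw [hW, Finset.mem_product, Finset.mem_Icc, Finset.mem_Icc]
    exact ⟨h1, h2⟩
  refine (measure_mono hsub).trans ((measure_iUnion_le _).trans ?_)
  have h1 : ∀ k : ℕ, pm r (⋃ u ∈ W, {ω | bad (fun v => ω ∈ B v) k u})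
      ≤ ENNReal.ofReal (49 * qq k) := by
    intro k
    refine (measure_biUnion_finset_le _ _).trans ?_
    calc _ ≤ ∑ u ∈ W, ENNReal.ofReal (qq k) :=
          Finset.sum_le_sum fun u _ => bad_prob' hI hM r B D hB hD h0 k u
      _ = _ := by
          rw [Finset.sum_const, hcW, nsmul_eq_mul, ENNReal.ofReal_mul (by norm_num)]
          norm_num
  refine (ENNReal.tsum_le_tsum h1).trans ?_
  have hs : HasSum (fun k : ℕ => 49 * qq k) (49 * (1 / 442050625)) := by
    unfold qq
    have h2 := hasSum_geometric_of_lt_one (r := (1 / 2 : ℝ)) (by norm_num) (by norm_num)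
    have h3 := h2.mul_left (49 * (1 / 442050625 * (1 / 2)))
    have e : (49 * (1 / 442050625 * (1 / 2)) * (1 - 1 / 2)⁻¹ : ℝ) = 49 * (1 / 442050625) := by
      norm_num
    have e2 : (fun k : ℕ => (49 : ℝ) * (1 / 442050625 * (1 / 2) ^ (k + 1)))
        = fun k => 49 * (1 / 442050625 * (1 / 2)) * (1 / 2) ^ k := by
      funext k
      rw [pow_succ]
      ring
    rw [e2, ← e]
    exact h3
  rw [← ENNReal.ofReal_tsum_of_nonneg (fun k => by unfold qq; positivity) hs.summable, hs.tsum_eq]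
  refine ENNReal.ofReal_le_ofReal ?_
  norm_num

theorem s_multi (hI : S_indep) (hM : S_depmeas) : S_multi := by
  classical
  intro ι r B D hB hD h0
  have h0' : ∀ v, pm r (B v) ≤ ENNReal.ofReal (1 / 884101250) := by
    intro v
    rw [← ENNReal.ofReal_toReal (measure_ne_top (pm r) (B v))]
    refine ENNReal.ofReal_le_ofReal ((h0 v).trans ?_)
    norm_num
  have hf := fail_prob' hI hM r B D hB hD h0'
  have hmeas : ∀ k u, MeasurableSet {ω : ι → Bool | bad (fun v => ω ∈ B v) k u} := fun k u =>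
    hM ι (DD D k u) _ (bad_dep B D hB k u)
  have hset : {ω : ι → Bool | ∀ k, safe (bad (fun v => ω ∈ B v) k) (0, 0)}
      = {ω | ∃ k, ¬ safe (bad (fun v => ω ∈ B v) k) (0, 0)}ᶜ := by
    ext ω
    simp only [Set.mem_ofPred_eq, Set.mem_compl_iff, not_exists, not_not]
  have hms : MeasurableSet {ω : ι → Bool | ∃ k, ¬ safe (bad (fun v => ω ∈ B v) k) (0, 0)} := by
    have : {ω : ι → Bool | ∃ k, ¬ safe (bad (fun v => ω ∈ B v) k) (0, 0)}
        = ⋃ k : ℕ, ⋃ u : P2, ⋃ _ : near u (0, 0), {ω | bad (fun v => ω ∈ B v) k u} := by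
      ext ω
      simp only [Set.mem_iUnion, Set.mem_ofPred_eq, safe]
      push Not
      constructor
      · rintro ⟨k, u, h1, h2⟩; exact ⟨k, u, h1, h2⟩
      · rintro ⟨k, u, h1, h2⟩; exact ⟨k, u, h1, h2⟩
    rw [this]
    exact MeasurableSet.iUnion fun k => MeasurableSet.iUnion fun u => MeasurableSet.iUnion fun _ =>
      hmeas k u
  have hreal : (pm r).real {ω : ι → Bool | ∃ k, ¬ safe (bad (fun v => ω ∈ B v) k) (0, 0)} ≤ 1 / 4 := by
    rw [Measure.real]
    exact ENNReal.toReal_le_of_le_ofReal (by norm_num) hf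
  rw [hset, probReal_compl_eq_one_sub hms]
  linarith

end

end Pool.Agent.W573.PC
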